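import Pool.Agent.H410R2.EDIface

/-!
Equalizer (task T3): making the divisor counts of the fixed parts of the linear forms equal.
-/

set_option autoImplicit false

open Finset

namespace Pool.Agent.H81R2.EDT3

open Pool.Agent.H410R2.ED

lemma dd_pos {n : ℕ} (h : 0 < n) : 0 < dd n := by
  unfold dd
  exact Finset.card_pos.mpr ⟨1, Nat.one_mem_divisors.mpr h.ne'⟩

lemma dd_mul {m n : ℕ} (h : Nat.Coprime m n) : dd (m * n) = dd m * dd n := by
  unfold dd
  exact h.card_divisors_mul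

lemma dd_prime_pow {p : ℕ} (hp : p.Prime) (k : ℕ) : dd (p ^ k) = k + 1 := by
  unfold dd
  rw [Nat.divisors_prime_pow hp k, Finset.card_map, Finset.card_range]

/-- If `p ^ k` divides `Q'` but not `y`, then `p` divides `Q' / gcd Q' y`. -/
lemma dvd_div_gcd {p k Q' y : ℕ} (hp : p.Prime) (h1 : p ^ k ∣ Q') (h2 : ¬ p ^ k ∣ y) :
    p ∣ Q' / Nat.gcd Q' y := by
  by_contra hcon
  apply h2
  have hG : Nat.gcd Q' y ∣ Q' := Nat.gcd_dvd_left _ _
  have heq : Nat.gcd Q' y * (Q' / Nat.gcd Q' y) = Q' := Nat.mul_div_cancel' hG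
  have hc : Nat.Coprime (p ^ k) (Q' / Nat.gcd Q' y) :=
    Nat.Coprime.pow_left k ((Nat.Prime.coprime_iff_not_dvd hp).mpr hcon)
  have h3 : p ^ k ∣ Nat.gcd Q' y * (Q' / Nat.gcd Q' y) := by rw [heq]; exact h1
  have h4 : p ^ k ∣ Nat.gcd Q' y := hc.dvd_of_dvd_mul_right h3
  exact h4.trans (Nat.gcd_dvd_right _ _)

/-- The core step: given that every prime of `Q'` divides `Q' / gcd Q' y`, the divisor count of
`Q' * n + y` factors. -/
lemma dd_form {Q' y n : ℕ} (hy : 0 < y)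
    (hp : ∀ p : ℕ, p.Prime → p ∣ Q' → p ∣ Q' / Nat.gcd Q' y) :
    dd (Q' * n + y) = dd (Nat.gcd Q' y) * dd (Q' / Nat.gcd Q' y * n + y / Nat.gcd Q' y) := by
  have hG : 0 < Nat.gcd Q' y := Nat.gcd_pos_of_pos_right _ hy
  have hcop : Nat.Coprime (Q' / Nat.gcd Q' y) (y / Nat.gcd Q' y) :=
    Nat.coprime_div_gcd_div_gcd hG
  have h1 : Nat.gcd Q' y * (Q' / Nat.gcd Q' y) = Q' := Nat.mul_div_cancel' (Nat.gcd_dvd_left _ _)
  have h2 : Nat.gcd Q' y * (y / Nat.gcd Q' y) = y := Nat.mul_div_cancel' (Nat.gcd_dvd_right _ _)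
  have h3 : Q' * n + y =
      Nat.gcd Q' y * (Q' / Nat.gcd Q' y * n + y / Nat.gcd Q' y) := by
    rw [mul_add, ← mul_assoc, h1, h2]
  have h4 : Nat.Coprime (Nat.gcd Q' y) (Q' / Nat.gcd Q' y * n + y / Nat.gcd Q' y) := by
    rw [Nat.coprime_iff_gcd_eq_one]
    by_contra hne
    obtain ⟨p, hpp, hpd⟩ := Nat.exists_prime_and_dvd hne
    have hpG : p ∣ Nat.gcd Q' y := hpd.trans (Nat.gcd_dvd_left _ _)
    have hpF : p ∣ Q' / Nat.gcd Q' y * n + y / Nat.gcd Q' y := hpd.trans (Nat.gcd_dvd_right _ _)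
    have hpa : p ∣ Q' / Nat.gcd Q' y := hp p hpp (hpG.trans (Nat.gcd_dvd_left _ _))
    have hpb : p ∣ y / Nat.gcd Q' y :=
      (Nat.dvd_add_right (hpa.mul_right n)).mp hpF
    have := Nat.dvd_gcd hpa hpb
    rw [hcop] at this
    exact hpp.one_lt.ne' (Nat.dvd_one.mp this)
  calc dd (Q' * n + y)
      = dd (Nat.gcd Q' y * (Q' / Nat.gcd Q' y * n + y / Nat.gcd Q' y)) := by rw [← h3]
    _ = _ := dd_mul h4

theorem equalize : Equalize := by
  intro ι _ s Q X hQ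
  classical
  -- a bound for the shifts
  obtain ⟨S, hS⟩ : ∃ S : Finset ℕ, S = Finset.univ.image s := ⟨_, rfl⟩
  have hmem : ∀ i, s i ∈ S := fun i => by rw [hS]; exact Finset.mem_image_of_mem _ (Finset.mem_univ i)
  obtain ⟨B, hB⟩ : ∃ B : ℕ, ∀ t ∈ S, t ≤ B := ⟨S.sup id, fun t ht => Finset.le_sup (f := id) ht⟩
  obtain ⟨X1, hX1⟩ : ∃ X1 : ℕ, X1 = X + Q := ⟨_, rfl⟩
  have hX1pos : 0 < X1 := by omega
  obtain ⟨E, hE⟩ : ∃ E : ℕ, E = X1 + B + 1 := ⟨_, rfl⟩
  obtain ⟨Q2, hQ2⟩ : ∃ Q2 : ℕ, Q2 = Q ^ E := ⟨_, rfl⟩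
  have hQ2pos : 0 < Q2 := by rw [hQ2]; positivity
  have hQQ2 : Q ∣ Q2 := by rw [hQ2]; exact dvd_pow_self Q (by omega)
  -- the old fixed parts
  obtain ⟨g1, hg1⟩ : ∃ g1 : ℕ → ℕ, ∀ t, g1 t = Nat.gcd Q2 (X1 + t) := ⟨_, fun _ => rfl⟩
  have hg1pos : ∀ t, 0 < g1 t := fun t => by
    rw [hg1]; exact Nat.gcd_pos_of_pos_left _ hQ2pos
  obtain ⟨V, hV⟩ : ∃ V : ℕ, V = ∏ t ∈ S, dd (g1 t) := ⟨_, rfl⟩
  have hVpos : 0 < V := by
    rw [hV]; exact Finset.prod_pos (fun t _ => dd_pos (hg1pos t))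
  have hdV : ∀ t ∈ S, dd (g1 t) ∣ V := fun t ht => by
    rw [hV]; exact Finset.dvd_prod_of_mem _ ht
  obtain ⟨β, hβ⟩ : ∃ β : ℕ → ℕ, ∀ t, β t = 2 * V / dd (g1 t) - 1 := ⟨_, fun _ => rfl⟩
  have hβ1 : ∀ t ∈ S, 1 ≤ β t ∧ dd (g1 t) * (β t + 1) = 2 * V := by
    intro t ht
    obtain ⟨c, hc⟩ := hdV t ht
    have hdp := dd_pos (hg1pos t)
    have hcpos : 0 < c := by
      rcases Nat.eq_zero_or_pos c with h | h
      · rw [h, mul_zero] at hc; omega
      · exact h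
    have h2 : 2 * V / dd (g1 t) = 2 * c := by
      rw [hc, show 2 * (dd (g1 t) * c) = dd (g1 t) * (2 * c) by ring]
      exact Nat.mul_div_cancel_left _ hdp
    have h3 : β t = 2 * c - 1 := by rw [hβ, h2]
    refine ⟨by omega, ?_⟩
    have h4 : β t + 1 = 2 * c := by omega
    rw [h4, hc]; ring
  -- the new primes
  obtain ⟨r, hr⟩ : ∃ r : ℕ → ℕ, ∀ t, r t = Nat.nth Nat.Prime (t + (Q2 + B + 1)) :=
    ⟨_, fun _ => rfl⟩
  have hrp : ∀ t, (r t).Prime := fun t => by rw [hr]; exact Nat.prime_nth_prime _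
  have hrlt : ∀ t, Q2 + B < r t := fun t => by
    have h : t + (Q2 + B + 1) ≤ Nat.nth Nat.Prime (t + (Q2 + B + 1)) :=
      (Nat.nth_strictMono Nat.infinite_setOfPred_prime).le_apply
    rw [hr]
    omega
  have hrinj : ∀ t t', r t = r t' → t = t' := by
    intro t t' h
    rw [hr, hr] at h
    have := (Nat.nth_strictMono Nat.infinite_setOfPred_prime).injective h
    omega
  obtain ⟨m, hm⟩ : ∃ m : ℕ → ℕ, ∀ t, m t = r t ^ (β t + 1) := ⟨_, fun _ => rfl⟩
  have hmpos : ∀ t, 0 < m t := fun t => by rw [hm]; exact pow_pos (hrp t).pos _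
  have hmcop : ∀ t t', t ≠ t' → Nat.Coprime (m t) (m t') := by
    intro t t' h
    rw [hm, hm]
    apply Nat.Coprime.pow
    rw [Nat.coprime_primes (hrp t) (hrp t')]
    exact fun h' => h (hrinj _ _ h')
  obtain ⟨R, hR⟩ : ∃ R : ℕ, R = ∏ t ∈ S, m t := ⟨_, rfl⟩
  have hRpos : 0 < R := by rw [hR]; exact Finset.prod_pos (fun t _ => hmpos t)
  have hrQ2 : ∀ t, Nat.Coprime (r t) Q2 := by
    intro t
    rw [Nat.Prime.coprime_iff_not_dvd (hrp t)]
    intro h
    have := Nat.le_of_dvd hQ2pos h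
    have := hrlt t
    omega
  have hQ2R : Nat.Coprime Q2 R := by
    rw [hR]
    apply Nat.Coprime.prod_right
    intro t _
    rw [hm]
    exact (Nat.Coprime.pow_left _ (hrQ2 t)).symm
  -- first Chinese remainder step
  obtain ⟨X3, hX3⟩ : ∃ X3 : ℕ, ∀ t ∈ S, X3 ≡ r t ^ β t + (m t - 1) * t [MOD m t] := by
    have := Nat.chineseRemainderOfFinset (fun t => r t ^ β t + (m t - 1) * t) m S
      (fun t _ => (hmpos t).ne') (fun t _ t' _ h => hmcop t t' h)
    exact ⟨this.1, this.2⟩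
  -- second step
  obtain ⟨X', hX'1, hX'2⟩ : ∃ X' : ℕ, X' ≡ X1 [MOD Q2] ∧ X' ≡ X3 [MOD R] := by
    have := Nat.chineseRemainder hQ2R X1 X3
    exact ⟨this.1, this.2.1, this.2.2⟩
  -- make it positive
  obtain ⟨Q', hQ'⟩ : ∃ Q' : ℕ, Q' = Q2 * R := ⟨_, rfl⟩
  have hQ'pos : 0 < Q' := by rw [hQ']; positivity
  have hmR : ∀ t ∈ S, m t ∣ R := fun t ht => by rw [hR]; exact Finset.dvd_prod_of_mem _ ht
  have hX't : ∀ t ∈ S, X' + t ≡ r t ^ β t [MOD m t] := by
    intro t ht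
    have h1 : X' ≡ r t ^ β t + (m t - 1) * t [MOD m t] :=
      (hX'2.of_dvd (hmR t ht)).trans (hX3 t ht)
    have h2 : X' + t ≡ r t ^ β t + (m t - 1) * t + t [MOD m t] := h1.add_right t
    have h3 : r t ^ β t + (m t - 1) * t + t = r t ^ β t + m t * t := by
      have := hmpos t
      obtain ⟨k, hk⟩ : ∃ k, m t = k + 1 := ⟨m t - 1, by omega⟩
      rw [hk]
      simp only [Nat.add_sub_cancel]
      ring
    rw [h3] at h2
    refine h2.trans ?_
    have : m t * t ≡ 0 [MOD m t] := (Nat.modEq_zero_iff_dvd.mpr (dvd_mul_right _ _))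
    simpa using (Nat.ModEq.refl (r t ^ β t)).add this
  have hXQ2 : ∀ t, X' + t ≡ X1 + t [MOD Q2] := fun t => hX'1.add_right t
  -- divisibility of `X' + t` by new primes
  have hrself : ∀ t ∈ S, r t ∣ X' + t := by
    intro t ht
    have h1 : r t ∣ m t := by rw [hm]; exact dvd_pow_self _ (by omega)
    have h2 : r t ∣ r t ^ β t := dvd_pow_self _ (by have := (hβ1 t ht).1; omega)
    exact (((hX't t ht).of_dvd h1).dvd_iff dvd_rfl).mpr h2
  have hrother : ∀ t ∈ S, ∀ t' ∈ S, t ≠ t' → ¬ r t' ∣ X' + t := by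
    intro t ht t' ht' hne hdvd
    have h1 := hrself t' ht'
    have h2 : (r t' : ℤ) ∣ (t : ℤ) - t' := by
      have ha : (r t' : ℤ) ∣ ((X' + t : ℕ) : ℤ) := by exact_mod_cast hdvd
      have hb : (r t' : ℤ) ∣ ((X' + t' : ℕ) : ℤ) := by exact_mod_cast h1
      have := dvd_sub ha hb
      push_cast at this
      have heq : (X' : ℤ) + t - (X' + t') = (t : ℤ) - t' := by ring
      rwa [heq] at this
    have h3 := Int.le_of_dvd (b := |(t : ℤ) - t'|) (abs_pos.mpr (by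
      intro h; apply hne; omega)) ((dvd_abs _ _).mpr h2)
    have h4 := hrlt t'
    have h5 := hB t ht
    have h6 := hB t' ht'
    have h7 : |(t : ℤ) - t'| ≤ B := by
      rw [abs_le]; constructor <;> omega
    omega
  have hmnot : ∀ t ∈ S, ¬ m t ∣ X' + t := by
    intro t ht h
    have h1 : m t ∣ r t ^ β t := ((hX't t ht).dvd_iff dvd_rfl).mp h
    have h2 := Nat.le_of_dvd (pow_pos (hrp t).pos _) h1
    rw [hm, pow_succ] at h2
    have h3 : 0 < r t ^ β t := pow_pos (hrp t).pos _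
    have h4 := (hrp t).two_le
    nlinarith
  have hXtpos : ∀ t ∈ S, 0 < X' + t := by
    intro t ht
    rcases Nat.eq_zero_or_pos (X' + t) with h | h
    · exact absurd (by rw [h]; exact dvd_zero _) (hmnot t ht)
    · exact h
  -- every prime of `Q'` divides `Q' / gcd`
  have hQdvd : Q2 ∣ Q' := by rw [hQ']; exact dvd_mul_right _ _
  have hRdvd : R ∣ Q' := by rw [hQ']; exact dvd_mul_left _ _
  have hfull : ∀ t ∈ S, ∀ p : ℕ, p.Prime → p ∣ Q' → p ∣ Q' / Nat.gcd Q' (X' + t) := by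
    intro t ht p hp hpQ'
    rw [hQ', hp.dvd_mul] at hpQ'
    rcases hpQ' with h | h
    · have hpQ : p ∣ Q := by rw [hQ2] at h; exact hp.dvd_of_dvd_pow h
      have h1 : p ^ E ∣ Q2 := by rw [hQ2]; exact pow_dvd_pow_of_dvd hpQ E
      refine dvd_div_gcd (k := E) hp (h1.trans hQdvd) ?_
      intro h2
      have h3 : p ^ E ∣ X1 + t := (((hXQ2 t).of_dvd h1).dvd_iff dvd_rfl).mp h2
      have h4 := Nat.le_of_dvd (by omega) h3
      have h5 : E < p ^ E := Nat.lt_pow_self hp.one_lt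
      have h6 := hB t ht
      omega
    · rw [hR] at h
      obtain ⟨t', ht', hpt'⟩ := (hp.prime.dvd_finsetProd_iff _).mp h
      rw [hm] at hpt'
      have hpr : p = r t' := (Nat.prime_dvd_prime_iff_eq hp (hrp t')).mp (hp.dvd_of_dvd_pow hpt')
      have h1 : p ^ (β t' + 1) ∣ Q' := by
        have := hmR t' ht'
        rw [hm, ← hpr] at this
        exact this.trans hRdvd
      refine dvd_div_gcd (k := β t' + 1) hp h1 ?_
      intro h2
      by_cases htt : t = t'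
      · apply hmnot t ht
        rw [hm, htt, ← hpr, ← htt]
        rw [← htt] at h2
        exact h2
      · apply hrother t ht t' ht' htt
        rw [← hpr]
        exact (dvd_pow_self p (by omega)).trans h2
  -- divisor count of the gcd
  have hdd : ∀ t ∈ S, dd (Nat.gcd Q' (X' + t)) = 2 * V := by
    intro t ht
    have h1 : Nat.gcd Q' (X' + t) = Nat.gcd Q2 (X' + t) * Nat.gcd R (X' + t) := by
      rw [hQ', Nat.gcd_comm, hQ2R.gcd_mul, Nat.gcd_comm (X' + t) Q2, Nat.gcd_comm (X' + t) R]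
    have h2 : Nat.gcd Q2 (X' + t) = g1 t := by
      rw [hg1]
      rw [Nat.gcd_comm, Nat.gcd_comm Q2]
      exact (hXQ2 t).gcd_eq
    have h3 : Nat.gcd R (X' + t) = r t ^ β t := by
      have h31 : R = m t * ∏ t' ∈ S.erase t, m t' := by
        rw [hR]; exact (Finset.mul_prod_erase S m ht).symm
      have h32 : Nat.Coprime (∏ t' ∈ S.erase t, m t') (X' + t) := by
        apply Nat.Coprime.prod_left
        intro t' ht'
        rw [Finset.mem_erase] at ht'
        rw [hm]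
        apply Nat.Coprime.pow_left
        rw [Nat.Prime.coprime_iff_not_dvd (hrp t')]
        exact hrother t ht t' ht'.2 (Ne.symm ht'.1)
      have h33 : Nat.gcd R (X' + t) = Nat.gcd (m t) (X' + t) := by
        rw [h31]
        exact Nat.Coprime.gcd_mul_right_cancel _ h32
      rw [h33, Nat.gcd_comm, (hX't t ht).gcd_eq, hm]
      exact Nat.gcd_eq_left (pow_dvd_pow _ (by omega))
    rw [h1, h2, h3]
    have h4 : Nat.Coprime (g1 t) (r t ^ β t) := by
      apply Nat.Coprime.pow_right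
      apply Nat.Coprime.symm
      apply Nat.Coprime.coprime_dvd_right _ (hrQ2 t)
      rw [hg1]; exact Nat.gcd_dvd_left _ _
    rw [dd_mul h4, dd_prime_pow (hrp t)]
    exact (hβ1 t ht).2
  refine ⟨Q', X', 2 * V, fun i => Q' / Nat.gcd Q' (X' + s i),
    fun i => (X' + s i) / Nat.gcd Q' (X' + s i), hQ'pos, hQQ2.trans hQdvd, ?_, by omega, ?_, ?_,
    ?_, ?_⟩
  · have h1 : X' ≡ X1 [MOD Q] := hX'1.of_dvd hQQ2
    have h2 : X1 ≡ X [MOD Q] := by
      rw [hX1]
      have : Q ≡ 0 [MOD Q] := (Nat.modEq_zero_iff_dvd.mpr dvd_rfl)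
      simpa using (Nat.ModEq.refl X).add this
    exact h1.trans h2
  · intro i
    exact Nat.div_pos (Nat.le_of_dvd hQ'pos (Nat.gcd_dvd_left _ _))
      (Nat.gcd_pos_of_pos_left _ hQ'pos)
  · intro i
    exact Nat.coprime_div_gcd_div_gcd (Nat.gcd_pos_of_pos_left _ hQ'pos)
  · intro i p hp hpQ
    exact hfull (s i) (hmem i) p hp (hpQ.trans (hQQ2.trans hQdvd))
  · intro i n
    have h := dd_form (n := n) (hXtpos (s i) (hmem i)) (hfull (s i) (hmem i))
    rw [hdd (s i) (hmem i)] at h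
    rw [add_assoc]
    exact h

end Pool.Agent.H81R2.EDT3
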